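import Pool.Agent.Q160.SG.Stm

/-!
# COUNT: the sum for the sign function of a two-colouring
-/

set_option autoImplicit false

namespace Pool.Agent.Q195.SG

open Finset Pool.Agent.Q160.SG

theorem t_COUNT : J_COUNT := by
  intro α _ W r c
  have h : ∀ K : Finset α, (if c (dropMax K) then (1 : ℤ) else -1) * (if c (dropMin K) then 1 else -1) =
      2 * (if c (dropMax K) = c (dropMin K) then 1 else 0) - 1 := by
    intro K
    cases c (dropMax K) <;> cases c (dropMin K) <;> simp
  unfold F mono
  simp only [h]
  rw [Finset.sum_sub_distrib, ← Finset.mul_sum, Finset.card_filter, Finset.sum_const,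
    Finset.card_powersetCard]
  push_cast
  simp

end Pool.Agent.Q195.SG
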